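import Pool.Agent.Helper92.UQ.Goals

set_option autoImplicit false

open PowerSeries

namespace Pool.Agent.Helper51.UQ.TAYD

section
variable {S Ω : Type} [CommRing S] [Field Ω] [CharZero Ω] (D : Derivation ℤ S S) (θ : S →+* Ω)

/-- the Taylor series -/
noncomputable def E (s : S) : PowerSeries Ω := PowerSeries.mk fun m => θ (D^[m] s) / (m.factorial : Ω)

theorem iter_add (m : ℕ) (s t : S) : D^[m] (s + t) = D^[m] s + D^[m] t := by
  induction m generalizing s t with
  | zero => rfl
  | succ m ih => rw [Function.iterate_succ_apply, Function.iterate_succ_apply,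
      Function.iterate_succ_apply, map_add, ih]

theorem E_add (s t : S) : E D θ (s + t) = E D θ s + E D θ t := by
  ext m
  simp only [E, coeff_mk, map_add, iter_add, add_div]

theorem E_der (s : S) : PowerSeries.derivative Ω (E D θ s) = E D θ (D s) := by
  ext m
  rw [PowerSeries.coeff_derivative]
  simp only [E, coeff_mk, Function.iterate_succ_apply, Nat.factorial_succ]
  have h1 : (m.factorial : Ω) ≠ 0 := Nat.cast_ne_zero.2 m.factorial_ne_zero
  have h2 : ((m : Ω) + 1) ≠ 0 := by exact_mod_cast Nat.succ_ne_zero m
  push_cast
  field_simp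

theorem E_const (s : S) : PowerSeries.constantCoeff (E D θ s) = θ s := by
  rw [← PowerSeries.coeff_zero_eq_constantCoeff_apply]
  simp [E]

theorem E_mul_coeff (m : ℕ) : ∀ s t : S,
    PowerSeries.coeff m (E D θ (s * t)) = PowerSeries.coeff m (E D θ s * E D θ t) := by
  induction m with
  | zero =>
    intro s t
    rw [PowerSeries.coeff_zero_eq_constantCoeff_apply, PowerSeries.coeff_zero_eq_constantCoeff_apply,
      map_mul, E_const, E_const, E_const, map_mul]
  | succ m ih =>
    intro s t
    have h2 : ((m : Ω) + 1) ≠ 0 := by exact_mod_cast Nat.succ_ne_zero m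
    apply mul_right_cancel₀ h2
    rw [← PowerSeries.coeff_derivative, ← PowerSeries.coeff_derivative, E_der, Derivation.leibniz,
      Derivation.leibniz, E_der, E_der, E_add, map_add, map_add]
    simp only [smul_eq_mul]
    rw [ih, ih]

theorem E_one : E D θ 1 = 1 := by
  have h0 : ∀ m : ℕ, D^[m] (0 : S) = 0 := by
    intro m
    induction m with
    | zero => rfl
    | succ m ih => rw [Function.iterate_succ_apply, map_zero, ih]
  ext m
  cases m with
  | zero => simp [E]
  | succ m =>
    simp only [E, coeff_mk, Function.iterate_succ_apply, Derivation.map_one_eq_zero, h0, map_zero, zero_div]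
    rw [PowerSeries.coeff_one, if_neg (Nat.succ_ne_zero m)]

theorem E_zero : E D θ 0 = 0 := by
  have h0 : ∀ m : ℕ, D^[m] (0 : S) = 0 := by
    intro m
    induction m with
    | zero => rfl
    | succ m ih => rw [Function.iterate_succ_apply, map_zero, ih]
  ext m
  simp only [E, coeff_mk, h0, map_zero, zero_div]

end

theorem t : Pool.Agent.Helper92.UQ.TAYD := by
  intro S Ω _ _ _ D θ
  refine ⟨{ toFun := E D θ
            map_one' := E_one D θ
            map_mul' := fun s t => PowerSeries.ext fun m => E_mul_coeff D θ m s t
            map_zero' := E_zero D θ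
            map_add' := E_add D θ }, fun s => ⟨E_const D θ s, E_der D θ s⟩⟩

end Pool.Agent.Helper51.UQ.TAYD
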